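import Pool.Agent.Y365.FS.Sph
import Pool.Agent.TH709.GG.Main

/-!
# The weighted flag complex inequality for a class closed under gluing and edge contractions
-/

set_option autoImplicit false
set_option linter.unusedVariables false
set_option linter.unusedSectionVars false

namespace Pool.Agent.V11177.CW

open Pool.Agent.W497.FS Pool.Agent.TH709.GG

variable {α : Type} [DecidableEq α] {H : SimpleGraph α}

/-- the links of even corank satisfy the Charney-Davis inequality -/
def CDL (H : SimpleGraph α) (d : ℕ) (W : Finset α) : Prop :=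
  ∀ T ∈ cl H W, ∀ l, T.card + 2 * l = d → 0 ≤ (-1 : ℚ) ^ l * lam H (lkF H W T)

theorem CDL.of_tm {d : ℕ} {W : Finset α} (h : TM H d W) : CDL H d W := by
  intro T hT l hl
  have h1 := h.mem T ∅ (Finset.disjoint_empty_right _) (by simpa using hT) (2 * l) (by omega)
  rw [D_empty] at h1
  exact lam_nonneg_of_GT h1

theorem CDL.of_kc {d : ℕ} {W : Finset α} (h : NP H d W) (hE : Eul H d W)
    (hK : Y365.FS.Kc H W) : CDL H d W := by
  intro T hT l hl
  obtain ⟨e, he, hNP, -, -⟩ := h.lkF hT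
  obtain rfl : e = 2 * l := by omega
  exact (hK.lkF h hT).cd hNP (hE.lkF_rank hT he)

theorem lkF_union {A B T : Finset α} (hAB : Full H A B) (hT : T ⊆ A ∪ B) :
    lkF H (A ∪ B) T = lkF H A (T ∩ A) ∪ lkF H B (T ∩ B) := by
  ext x
  rw [Finset.mem_union, mem_lkF, mem_lkF, mem_lkF]
  constructor
  · rintro ⟨h1, h2⟩
    rcases Finset.mem_union.1 h1 with h | h
    · exact Or.inl ⟨h, fun y hy => h2 y (Finset.mem_inter.1 hy).1⟩
    · exact Or.inr ⟨h, fun y hy => h2 y (Finset.mem_inter.1 hy).1⟩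
  · rintro (⟨h1, h2⟩ | ⟨h1, h2⟩)
    · refine ⟨Finset.mem_union_left _ h1, fun y hy => ?_⟩
      rcases Finset.mem_union.1 (hT hy) with h | h
      · exact h2 y (Finset.mem_inter.2 ⟨hy, h⟩)
      · exact (hAB x h1 y h).symm
    · refine ⟨Finset.mem_union_right _ h1, fun y hy => ?_⟩
      rcases Finset.mem_union.1 (hT hy) with h | h
      · exact hAB y h x h1
      · exact h2 y (Finset.mem_inter.2 ⟨hy, h⟩)

theorem CDL.join {d₁ d₂ : ℕ} {A B : Finset α} (hA : CDL H d₁ A) (hB : CDL H d₂ B)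
    (nA : NP H d₁ A) (nB : NP H d₂ B) (eA : Eul H d₁ A) (eB : Eul H d₂ B)
    (hAB : Full H A B) : CDL H (d₁ + d₂) (A ∪ B) := by
  intro T hT l hl
  have hsub := (mem_cl.1 hT).1
  have hTA : T ∩ A ∈ cl H A := mem_cl.2 ⟨Finset.inter_subset_right, fun x hx y hy hxy =>
    (mem_cl.1 hT).2 x (Finset.mem_inter.1 hx).1 y (Finset.mem_inter.1 hy).1 hxy⟩
  have hTB : T ∩ B ∈ cl H B := mem_cl.2 ⟨Finset.inter_subset_right, fun x hx y hy hxy =>
    (mem_cl.1 hT).2 x (Finset.mem_inter.1 hx).1 y (Finset.mem_inter.1 hy).1 hxy⟩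
  have hcard : (T ∩ A).card + (T ∩ B).card = T.card := by
    rw [← Finset.card_union_of_disjoint (Finset.disjoint_of_subset_left
      Finset.inter_subset_right (Finset.disjoint_of_subset_right Finset.inter_subset_right
      hAB.disjoint)), ← Finset.inter_union_distrib_left, Finset.inter_eq_left.2 hsub]
  have c1 := nA.card_le hTA
  have c2 := nB.card_le hTB
  have hfull : Full H (lkF H A (T ∩ A)) (lkF H B (T ∩ B)) := fun a ha b hb =>
    hAB a (mem_lkF.1 ha).1 b (mem_lkF.1 hb).1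
  rw [lkF_union hAB hsub, lam_join hfull]
  rcases Nat.even_or_odd (d₁ - (T ∩ A).card) with ⟨a, ha⟩ | ho
  · obtain ⟨b, hb⟩ : ∃ b, l = a + b := ⟨l - a, by omega⟩
    have h1 := hA _ hTA a (by omega)
    have h2 := hB _ hTB b (by omega)
    have h3 : (-1 : ℚ) ^ l * (lam H (lkF H A (T ∩ A)) * lam H (lkF H B (T ∩ B))) =
        ((-1) ^ a * lam H (lkF H A (T ∩ A))) * ((-1) ^ b * lam H (lkF H B (T ∩ B))) := by
      rw [hb, pow_add]; ring
    rw [h3]
    exact mul_nonneg h1 h2
  · rw [lam_odd (eA.lkF_rank hTA (by omega)) ho]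
    simp

/-- every join factor has rank `e` at most three, or at most `2 e + 6` or `3 e` vertices, or
belongs to the class `Cls` -/
def Kg (H : SimpleGraph α) (W : Finset α) : Prop :=
  ∀ C ∈ comps H W, ∀ e, NP H e C →
    (e ≤ 3 ∨ C.card ≤ 2 * e + 6 ∨ C.card ≤ 3 * e) ∨ Cls e α H C

theorem Kg.left {A B : Finset α} (hAB : Full H A B) (h : Kg H (A ∪ B)) : Kg H A :=
  fun C hC => h C (by rw [comps_union hAB]; exact Finset.mem_union_left _ hC)

theorem Kg.right {A B : Finset α} (hAB : Full H A B) (h : Kg H (A ∪ B)) : Kg H B :=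
  fun C hC => h C (by rw [comps_union hAB]; exact Finset.mem_union_right _ hC)

theorem cdl {d : ℕ} {W : Finset α} (h : NP H d W) (hE : Eul H d W) (hK : Kg H W) :
    CDL H d W := by
  revert hK
  refine join_induction' (H := H) (P := fun d W => Kg H W → CDL H d W) ?_ ?_ ?_ h hE
  · intro _ T hT l hl
    have hT0 : T = ∅ := Finset.subset_empty.1 (mem_cl.1 hT).1
    subst hT0
    obtain rfl : l = 0 := by simpa using hl
    have h1 : lkF H (∅ : Finset α) ∅ = ∅ := Finset.subset_empty.1 fun x hx => (mem_lkF.1 hx).1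
    rw [h1, lam_empty]
    norm_num
  · intro d W h hE hp _ hK
    rcases hK W (by rw [comps_prm hp]; exact Finset.mem_singleton_self W) (d + 1) h with h' | h'
    · refine CDL.of_kc h hE ?_
      intro C hC e he
      rw [comps_prm hp, Finset.mem_singleton] at hC
      subst hC
      obtain rfl := he.rank_unique h
      exact h'
    · exact CDL.of_tm h'.tm
  · intro d₁ d₂ A B hA hB eA eB _ hAB h1 h2 hK
    exact CDL.join (h1 (hK.left hAB)) (h2 (hK.right hAB)) hA hB eA eB hAB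

/-- the weighted inequality from the inequalities for the links -/
theorem weighted_of {m : ℕ} {W : Finset α} (hcard : ∀ T ∈ cl H W, T.card ≤ 2 * m)
    (hK : CDL H (2 * m) W) {N : Finset α → ℚ} (hN : Y365.FS.GoodOrders (cl H W) N) :
    0 ≤ (-1) ^ m * ∑ σ ∈ cl H W, (-1) ^ σ.card / N σ := by
  rw [Y365.FS.weighted_eq, Finset.mul_sum]
  refine Finset.sum_nonneg fun T hT => ?_
  have hc := hcard T hT
  rcases Nat.even_or_odd T.card with ⟨j, hj⟩ | ho
  · obtain ⟨l, hl⟩ : ∃ l, m = j + l := ⟨m - j, by omega⟩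
    have h1 := (hN T hT).2 j (by omega)
    have h2 := hK T hT l (by omega)
    have h3 : (-1 : ℚ) ^ m * ((-1) ^ T.card * Y365.FS.bN N T * lam H (lkF H W T)) =
        ((-1) ^ j * Y365.FS.bN N T) * ((-1) ^ l * lam H (lkF H W T)) := by
      have h4 : (-1 : ℚ) ^ T.card = 1 := by rw [hj]; exact Even.neg_one_pow ⟨j, rfl⟩
      rw [hl, h4, pow_add]; ring
    rw [h3]
    exact mul_nonneg h1 h2
  · rw [(hN T hT).1 ho]
    simp

/-- the weighted inequality in the class `Cls` -/
theorem weighted_cls {m : ℕ} {W : Finset α} (h : Cls (2 * m) α H W) {N : Finset α → ℚ}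
    (hN : Y365.FS.GoodOrders (cl H W) N) :
    0 ≤ (-1) ^ m * ∑ σ ∈ cl H W, (-1) ^ σ.card / N σ :=
  weighted_of h.tm.le (CDL.of_tm h.tm) hN

variable {k : Type} [Field k] {n d : ℕ} {S : Finset (Finset (Fin n))}

/-- from the condition on the faces inside the join factors to the class -/
theorem kg_of (h : IsFlagSphere k d S)
    (hC : ∀ C, IsFactor S C → (∀ F ∈ S, F ⊆ C → F.card ≤ 3) ∨
      (∃ F ∈ S, F ⊆ C ∧ C.card ≤ max (2 * F.card + 6) (3 * F.card)) ∨
      ∃ F ∈ S, F ⊆ C ∧ Cls F.card (Fin n) (skel S) C) :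
    Kg (skel S) (vert S) := by
  intro C hCc e he
  rcases hC C (mem_comps_iff.1 hCc) with h1 | ⟨F, hF, hFC, h2⟩ | ⟨F, hF, hFC, h2⟩
  · obtain ⟨β, hβ, hβc, -⟩ := he.exists_facet
    obtain ⟨hβS, hβC⟩ := Y365.FS.face_of_cl h hCc hβ
    left; left
    rw [← hβc]
    exact h1 β hβS hβC
  · have h3 := he.card_le (Y365.FS.cl_of_face h hF hFC)
    left; right
    rcases le_max_iff.1 h2 with h4 | h4
    · left; omega
    · right; omega
  · have h3 := he.card_le (Y365.FS.cl_of_face h hF hFC)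
    obtain ⟨β, hβ, hβc, -⟩ := he.exists_facet
    have h4 := h2.tm.le β hβ
    have h5 : F.card = e := by omega
    right
    rwa [h5] at h2

/-- the weighted inequality for flag homology spheres -/
theorem weighted_sphere {m : ℕ} (h : IsFlagSphere k (2 * m) S)
    (hC : ∀ C, IsFactor S C → (∀ F ∈ S, F ⊆ C → F.card ≤ 3) ∨
      (∃ F ∈ S, F ⊆ C ∧ C.card ≤ max (2 * F.card + 6) (3 * F.card)) ∨
      ∃ F ∈ S, F ⊆ C ∧ Cls F.card (Fin n) (skel S) C)
    {N : Finset (Fin n) → ℚ} (hN : Y365.FS.GoodOrders S N) :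
    0 ≤ (-1) ^ m * ∑ σ ∈ S, (-1) ^ σ.card / N σ := by
  have h1 := weighted_of (N := N) (fun T hT => h.np.card_le hT) (cdl h.np h.eul (kg_of h hC))
    (by rw [h.cl_eq]; exact hN)
  rwa [h.cl_eq] at h1

end Pool.Agent.V11177.CW
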